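import Mathlib
import Pool.Agent.Z700.Defs

/-!
Z700-FIX, part 1: the relation between two representations.
-/

set_option autoImplicit false
set_option linter.unusedSectionVars false

namespace Pool.Agent.Y165.Z

open Finset Matrix
open Pool.Agent.Z700

lemma fam_mod4 {p : ℕ} (h : Fam p) : p % 4 = 1 := by
  have := h.2.1
  omega

lemma fam_odd {p : ℕ} (h : Fam p) : Odd p := by
  rw [Nat.odd_iff]
  have := h.2.1
  omega

lemma fam_big {p : ℕ} (h : Fam p) : 24 < p := by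
  have h1 := h.2.1
  have h2 := h.1.two_le
  by_contra hc
  have : p = 1 := by omega
  omega

lemma fam_ndvd {p : ℕ} (h : Fam p) {a : ℤ} (ha : 0 < a) (ha' : a ≤ 24) : ¬ (p : ℤ) ∣ a := by
  intro hd
  have h1 := Int.le_of_dvd ha hd
  have h2 := fam_big h
  omega

lemma fam_pint {p : ℕ} (h : Fam p) : Prime (p : ℤ) := Nat.prime_iff_prime_int.1 h.1

lemma jac_pr (J : Finset ℕ) (r : ℕ) :
    jacobiSym ((pr J : ℕ) : ℤ) r = ∏ p ∈ J, jacobiSym (p : ℤ) r := by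
  classical
  induction J using Finset.induction_on with
  | empty => simp [pr, jacobiSym.one_left]
  | insert p J hp ih =>
    have h1 : pr (insert p J) = p * pr J := by rw [pr, pr, Finset.prod_insert hp]
    rw [h1, Nat.cast_mul, jacobiSym.mul_left, ih, Finset.prod_insert hp]

lemma jac_sq {p r : ℕ} (hp : Fam p) (hr : Fam r) (h : p ≠ r) :
    jacobiSym (p : ℤ) r * jacobiSym (p : ℤ) r = 1 := by
  have h1 : (p : ℤ).gcd r = 1 := by
    rw [Int.gcd_natCast_natCast]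
    exact (Nat.coprime_primes hp.1 hr.1).2 h
  have := jacobiSym.sq_one h1
  rwa [sq] at this

lemma jac_recip {p r : ℕ} (hp : Fam p) (hr : Fam r) :
    jacobiSym (p : ℤ) r = jacobiSym (r : ℤ) p :=
  jacobiSym.quadratic_reciprocity_one_mod_four (fam_mod4 hp) (fam_odd hr)

/-- the symbol of the change by the flips in `J` -/
noncomputable def sg' (P J : Finset ℕ) (r : ℕ) : ℤ :=
  if r ∈ J then jacobiSym ((pr (P \ J) : ℕ) : ℤ) r else jacobiSym ((pr J : ℕ) : ℤ) r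

open Classical in
/-- the number of flips of the second kind -/
noncomputable def nx (J : Finset ℕ) : ℕ := (J.filter fun p => X2 p).card

section

variable {P : Finset ℕ} (hP : ∀ p ∈ P, Fam p)

include hP

lemma ndvd2 (hp : S_SOLP) {q : ℤ × ℤ} (hq : q ∈ Sol3 P) {p : ℕ} (hpP : p ∈ P) :
    ¬ (p : ℤ) ∣ q.2 := by
  intro hd
  have h1 := (hp P hP q hq).1 p hpP
  have h2 : jacobiSym q.2 p = 0 := by
    rw [jacobiSym.eq_zero_iff]
    refine ⟨(hP p hpP).1.ne_zero, ?_⟩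
    intro hg
    have h3 : (p : ℤ) ∣ (q.2.gcd p : ℤ) := Int.dvd_coe_gcd hd dvd_rfl
    rw [hg] at h3
    exact (hP p hpP).1.one_lt.ne' (Nat.dvd_one.1 (Int.natCast_dvd_natCast.1 h3))
  rcases h1 with h1 | h1 <;> rw [h2] at h1 <;> norm_num at h1

lemma dvd_pr {p : ℕ} (hpP : p ∈ P) : (p : ℤ) ∣ (pr P : ℤ) := by
  have : p ∣ pr P := Finset.dvd_prod_of_mem _ hpP
  exact_mod_cast this

lemma ndvd1 (hp : S_SOLP) {q : ℤ × ℤ} (hq : q ∈ Sol3 P) {p : ℕ} (hpP : p ∈ P) :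
    ¬ (p : ℤ) ∣ q.1 := by
  intro hd
  have h1 := hq.1
  have hpp := fam_pint (hP p hpP)
  obtain ⟨k, hk⟩ := dvd_pr hP hpP
  obtain ⟨l, hl⟩ := hd
  have h2 : (p : ℤ) ∣ 14 * q.2 ^ 2 := ⟨9 * k - q.1 * l, by
    rw [hk] at h1
    linear_combination -h1 - q.1 * hl⟩
  rcases hpp.dvd_or_dvd h2 with h3 | h3
  · exact fam_ndvd (hP p hpP) (by norm_num) (by norm_num) h3
  · exact ndvd2 hP hp hq hpP (hpp.dvd_of_dvd_pow h3)

lemma key {q q' : ℤ × ℤ} (hq : q ∈ Sol3 P) (hq' : q' ∈ Sol3 P) {p : ℕ} (hpP : p ∈ P) :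
    (p : ℤ) ∣ q.1 * q'.2 - q'.1 * q.2 ∨ (p : ℤ) ∣ q.1 * q'.2 + q'.1 * q.2 := by
  apply (fam_pint (hP p hpP)).dvd_or_dvd
  obtain ⟨k, hk⟩ := dvd_pr hP hpP
  have h1 := hq.1
  have h2 := hq'.1
  rw [hk] at h1 h2
  exact ⟨9 * k * (q'.2 ^ 2 - q.2 ^ 2), by linear_combination -q'.2 ^ 2 * h1 + q.2 ^ 2 * h2⟩

/-- not both signs -/
lemma notboth (hp : S_SOLP) {q q' : ℤ × ℤ} (hq : q ∈ Sol3 P) (hq' : q' ∈ Sol3 P) {p : ℕ}
    (hpP : p ∈ P) (h1 : (p : ℤ) ∣ q.1 * q'.2 - q'.1 * q.2)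
    (h2 : (p : ℤ) ∣ q.1 * q'.2 + q'.1 * q.2) : False := by
  have hpp := fam_pint (hP p hpP)
  have h3 : (p : ℤ) ∣ 2 * (q.1 * q'.2) := by
    have := dvd_add h1 h2
    have e : q.1 * q'.2 - q'.1 * q.2 + (q.1 * q'.2 + q'.1 * q.2) = 2 * (q.1 * q'.2) := by ring
    rwa [e] at this
  rcases hpp.dvd_or_dvd h3 with h3 | h3
  · exact fam_ndvd (hP p hpP) (by norm_num) (by norm_num) h3
  rcases hpp.dvd_or_dvd h3 with h3 | h3
  · exact ndvd1 hP hp hq hpP h3
  · exact ndvd2 hP hp hq' hpP h3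

/-- composition of congruences -/
lemma comp_same (hp : S_SOLP) {q q' q'' : ℤ × ℤ} (hq : q ∈ Sol3 P) {p : ℕ} (hpP : p ∈ P)
    (h : ((p : ℤ) ∣ q.1 * q'.2 - q'.1 * q.2 ∧ (p : ℤ) ∣ q.1 * q''.2 - q''.1 * q.2) ∨
      ((p : ℤ) ∣ q.1 * q'.2 + q'.1 * q.2 ∧ (p : ℤ) ∣ q.1 * q''.2 + q''.1 * q.2)) :
    (p : ℤ) ∣ q'.1 * q''.2 - q''.1 * q'.2 := by
  have hpp := fam_pint (hP p hpP)
  have h3 : (p : ℤ) ∣ q.2 * (q'.1 * q''.2 - q''.1 * q'.2) := by
    rcases h with ⟨⟨k, hk⟩, ⟨l, hl⟩⟩ | ⟨⟨k, hk⟩, ⟨l, hl⟩⟩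
    · exact ⟨-k * q''.2 + l * q'.2, by linear_combination -q''.2 * hk + q'.2 * hl⟩
    · exact ⟨k * q''.2 - l * q'.2, by linear_combination q''.2 * hk - q'.2 * hl⟩
  exact (hpp.dvd_or_dvd h3).resolve_left (ndvd2 hP hp hq hpP)

lemma comp_diff (hp : S_SOLP) {q q' q'' : ℤ × ℤ} (hq : q' ∈ Sol3 P) {p : ℕ} (hpP : p ∈ P)
    (h1 : (p : ℤ) ∣ q.1 * q'.2 - q'.1 * q.2) (h2 : (p : ℤ) ∣ q'.1 * q''.2 + q''.1 * q'.2) :
    (p : ℤ) ∣ q.1 * q''.2 + q''.1 * q.2 := by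
  have hpp := fam_pint (hP p hpP)
  obtain ⟨k, hk⟩ := h1
  obtain ⟨l, hl⟩ := h2
  have h3 : (p : ℤ) ∣ q'.2 * (q.1 * q''.2 + q''.1 * q.2) :=
    ⟨k * q''.2 + l * q.2, by linear_combination q''.2 * hk + q.2 * hl⟩
  exact (hpp.dvd_or_dvd h3).resolve_left (ndvd2 hP hp hq hpP)

lemma comp_diff' (hp : S_SOLP) {q q' q'' : ℤ × ℤ} (hq : q' ∈ Sol3 P) {p : ℕ} (hpP : p ∈ P)
    (h1 : (p : ℤ) ∣ q.1 * q'.2 + q'.1 * q.2) (h2 : (p : ℤ) ∣ q'.1 * q''.2 - q''.1 * q'.2) :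
    (p : ℤ) ∣ q.1 * q''.2 + q''.1 * q.2 := by
  have hpp := fam_pint (hP p hpP)
  obtain ⟨k, hk⟩ := h1
  obtain ⟨l, hl⟩ := h2
  have h3 : (p : ℤ) ∣ q'.2 * (q.1 * q''.2 + q''.1 * q.2) :=
    ⟨k * q''.2 - l * q.2, by linear_combination q''.2 * hk - q.2 * hl⟩
  exact (hpp.dvd_or_dvd h3).resolve_left (ndvd2 hP hp hq hpP)

lemma comp_zero (hp : S_SOLP) {q q' q'' : ℤ × ℤ} (hq : q' ∈ Sol3 P) {p : ℕ} (hpP : p ∈ P)
    (h1 : (p : ℤ) ∣ q.1 * q'.2 - q'.1 * q.2) (h2 : (p : ℤ) ∣ q'.1 * q''.2 - q''.1 * q'.2) :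
    (p : ℤ) ∣ q.1 * q''.2 - q''.1 * q.2 := by
  have hpp := fam_pint (hP p hpP)
  obtain ⟨k, hk⟩ := h1
  obtain ⟨l, hl⟩ := h2
  have h3 : (p : ℤ) ∣ q'.2 * (q.1 * q''.2 - q''.1 * q.2) :=
    ⟨k * q''.2 + l * q.2, by linear_combination q''.2 * hk + q.2 * hl⟩
  exact (hpp.dvd_or_dvd h3).resolve_left (ndvd2 hP hp hq hpP)

/-- the product formula at one prime -/
lemma at_prime (hp : S_SOLP) {q : ℤ × ℤ} (hq : q ∈ Sol3 P) {p : ℕ} (hpP : p ∈ P) :
    jacobiSym q.2 p = ∏ r ∈ P.erase p, jacobiSym q.2 r := by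
  have h1 := (hp P hP q hq).1 p hpP
  have h2 := (hp P hP q hq).2
  rw [← Finset.mul_prod_erase P _ hpP] at h2
  rcases h1 with h1 | h1 <;> rw [h1] at h2 ⊢ <;> linarith

lemma flips (hb : S_SOLB) (hp : S_SOLP) {q : ℤ × ℤ} (hq : q ∈ Sol3 P) (J : Finset ℕ)
    (hJ : J ⊆ P) : ∃ q' ∈ Sol3 P, (∀ p ∈ J, (p : ℤ) ∣ q.1 * q'.2 + q'.1 * q.2) ∧
    (∀ p ∈ P, p ∉ J → (p : ℤ) ∣ q.1 * q'.2 - q'.1 * q.2) ∧
    (∀ r ∈ P, jacobiSym q'.2 r = jacobiSym q.2 r * sg' P J r) ∧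
    jacobiSym q'.1 7 = jacobiSym q.1 7 * (-1) ^ nx J := by
  classical
  induction J using Finset.induction_on with
  | empty =>
    refine ⟨q, hq, by simp, fun p _ _ => by simp, fun r _ => ?_, ?_⟩
    · simp [sg', pr, jacobiSym.one_left]
    · simp [nx]
  | insert p J hpJ ih =>
    have hpP : p ∈ P := hJ (Finset.mem_insert_self _ _)
    have hJP : J ⊆ P := (Finset.subset_insert _ _).trans hJ
    obtain ⟨q', hq', h1, h2, h3, h4⟩ := ih hJP
    obtain ⟨q'', hq'', k1, k2, k3, k4, k5⟩ := hb P hP p hpP q' hq'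
    have hPc : P \ J = insert p (P \ insert p J) := by
      ext x
      simp only [Finset.mem_sdiff, Finset.mem_insert]
      constructor
      · rintro ⟨a, b⟩
        by_cases hx : x = p
        · exact Or.inl hx
        · exact Or.inr ⟨a, fun h => h.elim hx b⟩
      · rintro (rfl | ⟨a, b⟩)
        · exact ⟨hpP, hpJ⟩
        · exact ⟨a, fun h => b (Or.inr h)⟩
    have hpn : p ∉ P \ insert p J := by simp
    have hpr1 : pr (P \ J) = p * pr (P \ insert p J) := by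
      rw [hPc, pr, pr, Finset.prod_insert hpn]
    have hpr2 : pr (insert p J) = p * pr J := by rw [pr, pr, Finset.prod_insert hpJ]
    refine ⟨q'', hq'', ?_, ?_, ?_, ?_⟩
    · intro r hr
      rcases Finset.mem_insert.1 hr with rfl | hr
      · exact comp_diff hP hp hq' hpP (h2 r hpP hpJ) k1
      · have hrP := hJP hr
        have hrp : r ≠ p := fun h => hpJ (h ▸ hr)
        exact comp_diff' hP hp hq' hrP (h1 r hr) (k2 r hrP hrp)
    · intro r hrP hr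
      have hrp : r ≠ p := fun h => hr (h ▸ Finset.mem_insert_self _ _)
      have hrJ : r ∉ J := fun h => hr (Finset.mem_insert_of_mem h)
      exact comp_zero hP hp hq' hrP (h2 r hrP hrJ) (k2 r hrP hrp)
    · intro r hrP
      by_cases hrp : r = p
      · subst hrp
        have e0 : jacobiSym q''.2 r = (∏ s ∈ P.erase r, jacobiSym (r : ℤ) s) * jacobiSym q'.2 r := by
          rw [at_prime hP hp hq'' hpP, at_prime hP hp hq' hpP, ← Finset.prod_mul_distrib]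
          refine Finset.prod_congr rfl fun s hs => ?_
          rw [Finset.mem_erase] at hs
          exact k3 s hs.2 hs.1
        have e1 : ∏ s ∈ P.erase r, jacobiSym (r : ℤ) s =
            jacobiSym ((pr (P.erase r) : ℕ) : ℤ) r := by
          rw [jac_pr]
          refine Finset.prod_congr rfl fun s hs => ?_
          exact jac_recip (hP r hpP) (hP s (Finset.mem_of_mem_erase hs))
        have e2 : P.erase r = J ∪ (P \ insert r J) := by
          ext x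
          simp only [Finset.mem_erase, Finset.mem_union, Finset.mem_sdiff, Finset.mem_insert]
          constructor
          · rintro ⟨a, b⟩
            by_cases hx : x ∈ J
            · exact Or.inl hx
            · exact Or.inr ⟨b, fun h => h.elim a hx⟩
          · rintro (h | ⟨a, b⟩)
            · exact ⟨fun hh => hpJ (hh ▸ h), hJP h⟩
            · exact ⟨fun hh => b (Or.inl hh), a⟩
        have e3 : Disjoint J (P \ insert r J) := by
          rw [Finset.disjoint_left]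
          intro x hx hx'
          exact (Finset.mem_sdiff.1 hx').2 (Finset.mem_insert_of_mem hx)
        have e4 : pr (P.erase r) = pr J * pr (P \ insert r J) := by
          rw [e2, pr, pr, pr, Finset.prod_union e3]
        have e5 : jacobiSym ((pr J : ℕ) : ℤ) r * jacobiSym ((pr J : ℕ) : ℤ) r = 1 := by
          rw [jac_pr, ← Finset.prod_mul_distrib]
          refine Finset.prod_eq_one fun s hs => ?_
          exact jac_sq (hP s (hJP hs)) (hP r hpP) (fun h => hpJ (h ▸ hs))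
        rw [e0, e1, e4, Nat.cast_mul, jacobiSym.mul_left, h3 r hpP, sg', sg', if_neg hpJ,
          if_pos (Finset.mem_insert_self _ _)]
        linear_combination (jacobiSym ((pr (P \ insert r J) : ℕ) : ℤ) r * jacobiSym q.2 r) * e5
      · have e5 := jac_sq (hP p hpP) (hP r hrP) (Ne.symm hrp)
        rw [k3 r hrP hrp, h3 r hrP]
        by_cases hrJ : r ∈ J
        · rw [sg', sg', if_pos hrJ, if_pos (Finset.mem_insert_of_mem hrJ), hpr1, Nat.cast_mul,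
            jacobiSym.mul_left]
          linear_combination (jacobiSym ((pr (P \ insert p J) : ℕ) : ℤ) r * jacobiSym q.2 r) * e5
        · have hr' : r ∉ insert p J := by
            rw [Finset.mem_insert]
            rintro (h | h)
            · exact hrp h
            · exact hrJ h
          rw [sg', sg', if_neg hrJ, if_neg hr', hpr2, Nat.cast_mul, jacobiSym.mul_left]
          ring
    · by_cases hx : X2 p
      · have : nx (insert p J) = nx J + 1 := by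
          rw [nx, nx, Finset.filter_insert, if_pos hx, Finset.card_insert_of_notMem]
          simp [hpJ]
        rw [k4 hx, h4, this, pow_succ]
        ring
      · have : nx (insert p J) = nx J := by
          rw [nx, nx, Finset.filter_insert, if_neg hx]
        rw [k5 hx, h4, this]

lemma uniq (hc : S_SOLC) (hp : S_SOLP) {q q' q'' : ℤ × ℤ} (hq : q ∈ Sol3 P) (hq' : q' ∈ Sol3 P)
    (hq'' : q'' ∈ Sol3 P)
    (h : ∀ p ∈ P, ((p : ℤ) ∣ q.1 * q'.2 - q'.1 * q.2 ∧ (p : ℤ) ∣ q.1 * q''.2 - q''.1 * q.2) ∨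
      ((p : ℤ) ∣ q.1 * q'.2 + q'.1 * q.2 ∧ (p : ℤ) ∣ q.1 * q''.2 + q''.1 * q.2)) : q' = q'' :=
  hc P hP q' hq' q'' hq'' fun p hpP => comp_same hP hp hq hpP (h p hpP)

open Classical in
/-- the set of primes where two representations differ -/
noncomputable def Jd (P : Finset ℕ) (q q' : ℤ × ℤ) : Finset ℕ :=
  P.filter fun p => ¬ (p : ℤ) ∣ q.1 * q'.2 - q'.1 * q.2

lemma rel (hb : S_SOLB) (hc : S_SOLC) (hp : S_SOLP) {q q' : ℤ × ℤ} (hq : q ∈ Sol3 P)
    (hq' : q' ∈ Sol3 P) : (∀ r ∈ P, jacobiSym q'.2 r = jacobiSym q.2 r * sg' P (Jd P q q') r) ∧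
    jacobiSym q'.1 7 = jacobiSym q.1 7 * (-1) ^ nx (Jd P q q') := by
  classical
  obtain ⟨q'', hq'', h1, h2, h3, h4⟩ := flips hP hb hp hq (Jd P q q') (Finset.filter_subset _ _)
  have he : q' = q'' := by
    refine uniq hP hc hp hq hq' hq'' fun p hpP => ?_
    by_cases hd : (p : ℤ) ∣ q.1 * q'.2 - q'.1 * q.2
    · left
      refine ⟨hd, h2 p hpP ?_⟩
      rw [Jd, Finset.mem_filter]
      exact fun h => h.2 hd
    · right
      refine ⟨(key hP hq hq' hpP).resolve_left hd, h1 p ?_⟩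
      rw [Jd, Finset.mem_filter]
      exact ⟨hpP, hd⟩
  subst he
  exact ⟨h3, h4⟩

end

end Pool.Agent.Y165.Z
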