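import Mathlib
import Pool.Agent.Z700.Defs
import Pool.Agent.Y165.Z.Fix1

/-!
Z700-FIX, part 2: the parity of the number of the remaining representations.
-/

set_option autoImplicit false
set_option linter.unusedSectionVars false

namespace Pool.Agent.Y165.Z

open Finset Matrix
open Pool.Agent.Z700

/-- the condition of the remaining representations -/
def Cc (P : Finset ℕ) (q : ℤ × ℤ) : Prop :=
  (q.1 : ZMod 7) = -(2 * be P) ∧ ∀ p ∈ P, jacobiSym q.2 p = 1

open Classical in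
/-- the remaining representations -/
noncomputable def FS (P : Finset ℕ) : Finset (ℤ × ℤ) :=
  ((Ioo (-(9 * (pr P : ℤ))) (9 * (pr P : ℤ))) ×ˢ (Ioo (-(9 * (pr P : ℤ))) (9 * (pr P : ℤ)))).filter
    fun q => q ∈ Sol3 P ∧ Cc P q

lemma sol_ne {P : Finset ℕ} {q : ℤ × ℤ} (hq : q ∈ Sol3 P) : q.2 ≠ 0 := by
  intro h
  have h1 := hq.2.2.2
  rw [h, zero_sub] at h1
  exact hq.2.2.1 ((dvd_neg).1 h1)

lemma sol_bd {P : Finset ℕ} {q : ℤ × ℤ} (hq : q ∈ Sol3 P) :
    q.1 ^ 2 < 9 * (pr P : ℤ) ∧ q.2 ^ 2 < 9 * (pr P : ℤ) := by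
  have h1 := hq.1
  have h2 := sol_ne hq
  have h3 : 0 < q.2 ^ 2 := by positivity
  have h4 : 0 ≤ q.1 ^ 2 := by positivity
  constructor <;> linarith

lemma mem_Ioo_of_sq {b n : ℤ} (h : b ^ 2 < n) : b ∈ Ioo (-n) n := by
  rw [Finset.mem_Ioo]
  have h1 := Int.le_self_sq b
  have h2 := Int.le_self_sq (-b)
  rw [neg_sq] at h2
  constructor <;> linarith

lemma mem_FS {P : Finset ℕ} {q : ℤ × ℤ} : q ∈ FS P ↔ q ∈ Sol3 P ∧ Cc P q := by
  classical
  rw [FS, Finset.mem_filter, Finset.mem_product]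
  constructor
  · exact fun h => h.2
  · exact fun h => ⟨⟨mem_Ioo_of_sq (sol_bd h.1).1, mem_Ioo_of_sq (sol_bd h.1).2⟩, h⟩

lemma fs_inj {P : Finset ℕ} {q q' : ℤ × ℤ} (hq : q ∈ Sol3 P) (hq' : q' ∈ Sol3 P)
    (h : q.1 = q'.1) : q = q' := by
  have h1 := hq.1
  have h2 := hq'.1
  rw [← h] at h2
  have h3 : (q.2 - q'.2) * (q.2 + q'.2) = 0 := by nlinarith
  rcases mul_eq_zero.1 h3 with h4 | h4
  · exact Prod.ext h (by linarith)
  · exfalso
    have h5 := hq.2.2.2
    have h6 := hq'.2.2.2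
    rw [← h] at h6
    have h7 : q'.2 = -q.2 := by linarith
    rw [h7] at h6
    apply hq.2.2.1
    obtain ⟨k, hk⟩ := h5
    obtain ⟨l, hl⟩ := h6
    exact ⟨q.1 + k + l, by linarith⟩

lemma mem_flt {α : Type} {p : α → Prop} (inst : DecidablePred p) {s : Finset α} {a : α} :
    a ∈ @Finset.filter α p inst s ↔ a ∈ s ∧ p a := Finset.mem_filter

lemma mem_FixS {P : Finset ℕ} {b : ℤ} : b ∈ FixS P ↔
    b ∈ Ioo (-(9 * (pr P : ℤ))) (9 * (pr P : ℤ)) ∧ (b % 4 = 1 ∧ (b : ZMod 7) = -(2 * be P) ∧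
      ¬ (3 : ℤ) ∣ b ∧ ∃ y ∈ range (9 * pr P), 9 * (pr P : ℤ) = b ^ 2 + 14 * (y : ℤ) ^ 2 ∧
        ∀ p ∈ P, jacobiSym y p = 1) :=
  mem_flt _

lemma fixS_card {P : Finset ℕ} (hP : ∀ p ∈ P, Fam p) : (FixS P).card = (FS P).card := by
  classical
  have himg : FixS P = (FS P).image Prod.fst := by
    ext b
    rw [Finset.mem_image, mem_FixS]
    constructor
    · rintro ⟨hb, h1, h2, h3, y, hy, h4, h5⟩
      have h6 : (3 : ℤ) ∣ (b - y) * (b + y) :=
        ⟨3 * (pr P : ℤ) - 5 * (y : ℤ) ^ 2, by linear_combination -h4⟩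
      have hpr3 : Prime (3 : ℤ) := Int.prime_three
      rcases hpr3.dvd_or_dvd h6 with h7 | h7
      · refine ⟨(b, (y : ℤ)), ?_, rfl⟩
        rw [mem_FS]
        refine ⟨⟨h4, h1, h3, ?_⟩, h2, h5⟩
        have := (dvd_neg).2 h7
        rwa [neg_sub] at this
      · refine ⟨(b, -(y : ℤ)), ?_, rfl⟩
        rw [mem_FS]
        refine ⟨⟨by simpa using h4, h1, h3, ?_⟩, h2, fun p hp => ?_⟩
        · have := (dvd_neg).2 h7
          have e : -(b + (y : ℤ)) = -(y : ℤ) - b := by ring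
          rwa [e] at this
        · show jacobiSym (-(y : ℤ)) p = 1
          rw [jacobiSym.neg _ (fam_odd (hP p hp)), h5 p hp,
            ZMod.χ₄_nat_one_mod_four (fam_mod4 (hP p hp))]
          norm_num
    · rintro ⟨q, hq, rfl⟩
      rw [mem_FS] at hq
      obtain ⟨hq, h2, h5⟩ := hq
      refine ⟨mem_Ioo_of_sq (sol_bd hq).1, hq.2.1, h2, hq.2.2.1, q.2.natAbs, ?_, ?_, ?_⟩
      · rw [Finset.mem_range]
        have h3 := Finset.mem_Ioo.1 (mem_Ioo_of_sq (sol_bd hq).2)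
        omega
      · rw [Int.natCast_natAbs, sq_abs]
        exact hq.1
      · intro p hp
        have h6 := h5 p hp
        rcases le_total 0 q.2 with h7 | h7
        · rwa [Int.natAbs_of_nonneg h7]
        · rw [Int.ofNat_natAbs_of_nonpos h7, jacobiSym.neg _ (fam_odd (hP p hp)), h6,
            ZMod.χ₄_nat_one_mod_four (fam_mod4 (hP p hp))]
          norm_num
  rw [himg, Finset.card_image_of_injOn]
  intro q hq q' hq' h
  exact fs_inj (mem_FS.1 hq).1 (mem_FS.1 hq').1 h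

instance : Fact (Nat.Prime 7) := ⟨by norm_num⟩

lemma chi7 : ∀ c z : ZMod 7, c ≠ 0 → z ^ 2 = c ^ 2 →
    (quadraticChar (ZMod 7) z = 1 ∨ quadraticChar (ZMod 7) z = -1) ∧
    (z = c ↔ quadraticChar (ZMod 7) z = quadraticChar (ZMod 7) c) := by
  decide

lemma jac7 (a : ℤ) : jacobiSym a 7 = quadraticChar (ZMod 7) (a : ZMod 7) := by
  rw [← jacobiSym.legendreSym.to_jacobiSym]
  rfl

lemma sq7_sq {p : ℕ} (h : Fam p) : sq7 p ^ 2 = (p : ZMod 7) := by
  have h1 : (p : ZMod 7) = ((p % 7 : ℕ) : ZMod 7) := by rw [ZMod.natCast_mod]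
  rw [h1]
  rcases h.2.2 with h2 | h2 | h2 <;> simp only [sq7, h2] <;> decide

lemma sq7_ne (p : ℕ) : sq7 p ≠ 0 := by
  unfold sq7
  split_ifs <;> decide

lemma be_sq {P : Finset ℕ} (hP : ∀ p ∈ P, Fam p) : be P ^ 2 = 4 * (pr P : ZMod 7) := by
  rw [be, mul_pow, ← Finset.prod_pow, Finset.prod_congr rfl fun p hp => sq7_sq (hP p hp), pr,
    Nat.cast_prod]
  congr 1

lemma be_ne (P : Finset ℕ) : be P ≠ 0 := by
  rw [be]
  refine mul_ne_zero (by decide) (Finset.prod_ne_zero_iff.2 fun p _ => sq7_ne p)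

lemma eps {P : Finset ℕ} (hP : ∀ p ∈ P, Fam p) : ∃ ε : ℤ, (ε = 1 ∨ ε = -1) ∧
    ∀ q ∈ Sol3 P, (jacobiSym q.1 7 = 1 ∨ jacobiSym q.1 7 = -1) ∧
      ((q.1 : ZMod 7) = -(2 * be P) ↔ jacobiSym q.1 7 = ε) := by
  have hc : -(2 * be P) ≠ 0 := neg_ne_zero.2 (mul_ne_zero (by decide) (be_ne P))
  refine ⟨quadraticChar (ZMod 7) (-(2 * be P)), (chi7 _ _ hc rfl).1, fun q hq => ?_⟩
  have h1 : ((q.1 : ℤ) : ZMod 7) ^ 2 = (-(2 * be P)) ^ 2 := by
    have h2 := congrArg (fun x : ℤ => (x : ZMod 7)) hq.1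
    simp only [Int.cast_mul, Int.cast_add, Int.cast_pow, Int.cast_natCast, Int.cast_ofNat] at h2
    have h3 : (14 : ZMod 7) = 0 := by decide
    have h4 : (9 : ZMod 7) = 16 := by decide
    rw [h3, zero_mul, add_zero, h4] at h2
    rw [neg_sq, mul_pow, be_sq hP, ← h2]
    ring
  have := chi7 _ _ hc h1
  rw [jac7]
  exact this

section

variable {P : Finset ℕ} (hP : ∀ p ∈ P, Fam p)

include hP

lemma sg_one_of_eq (hp : S_SOLP) {q : ℤ × ℤ} (hq : q ∈ Sol3 P) {r : ℕ} (hr : r ∈ P) {s : ℤ}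
    (h : jacobiSym q.2 r = jacobiSym q.2 r * s) : s = 1 := by
  rcases (hp P hP q hq).1 r hr with h1 | h1 <;> rw [h1] at h <;> linarith

lemma sig_inj (hb : S_SOLB) (hc : S_SOLC) (hp : S_SOLP) (hK : KerT P) (hodd : Odd (nx P))
    {q q' : ℤ × ℤ} (hq : q ∈ Sol3 P) (hq' : q' ∈ Sol3 P)
    (h1 : ∀ r ∈ P, jacobiSym q.2 r = jacobiSym q'.2 r) (h2 : jacobiSym q.1 7 = jacobiSym q'.1 7) :
    q = q' := by
  classical
  obtain ⟨k1, k2⟩ := rel hP hb hc hp hq hq'
  set J := Jd P q q' with hJ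
  have hJP : J ⊆ P := Finset.filter_subset _ _
  have hs : ∀ r ∈ P, sg' P J r = 1 := fun r hr =>
    sg_one_of_eq hP hp hq hr (by rw [← k1 r hr, h1 r hr])
  have h3 := hK J hJP
    (fun p hp' => by
      have hp1 := Finset.mem_sdiff.1 hp'
      have := hs p hp1.1
      rwa [sg', if_neg hp1.2] at this)
    (fun p hp' => by
      have := hs p (hJP hp')
      rwa [sg', if_pos hp'] at this)
  rcases h3 with h3 | h3
  · refine hc P hP q hq q' hq' fun p hpP => ?_
    by_contra hd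
    have : p ∈ J := by rw [hJ, Jd, Finset.mem_filter]; exact ⟨hpP, hd⟩
    rw [h3] at this
    exact absurd this (Finset.notMem_empty p)
  · exfalso
    rw [h3, hodd.neg_one_pow, ← h2] at k2
    obtain ⟨ε, _, hε⟩ := eps hP
    rcases (hε q hq).1 with h | h <;> rw [h] at k2 <;> norm_num at k2

open Classical in
/-- the code of a representation -/
noncomputable def code (P : Finset ℕ) (p0 : ℕ) (q : ℤ × ℤ) : Finset ℕ :=
  if jacobiSym q.1 7 = 1 then insert p0 (P.filter fun r => jacobiSym q.2 r = -1)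
  else (P.filter fun r => jacobiSym q.2 r = -1).erase p0

omit hP in
lemma code_p0 (p0 : ℕ) (q : ℤ × ℤ) : p0 ∈ code P p0 q ↔ jacobiSym q.1 7 = 1 := by
  classical
  rw [code]
  split_ifs with h
  · simp [h]
  · simp [h]

omit hP in
lemma code_r {p0 r : ℕ} (hr : r ∈ P) (hr0 : r ≠ p0) (q : ℤ × ℤ) :
    r ∈ code P p0 q ↔ jacobiSym q.2 r = -1 := by
  classical
  rw [code]
  split_ifs with h
  · simp [hr, hr0]
  · simp [hr, hr0]

omit hP in
lemma code_sub {p0 : ℕ} (h0 : p0 ∈ P) (q : ℤ × ℤ) : code P p0 q ⊆ P := by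
  classical
  rw [code]
  split_ifs with h
  · exact Finset.insert_subset h0 (Finset.filter_subset _ _)
  · exact (Finset.erase_subset _ _).trans (Finset.filter_subset _ _)

lemma code_inj (hb : S_SOLB) (hc : S_SOLC) (hp : S_SOLP) (hK : KerT P) (hodd : Odd (nx P))
    {p0 : ℕ} (h0 : p0 ∈ P) {q q' : ℤ × ℤ} (hq : q ∈ Sol3 P) (hq' : q' ∈ Sol3 P)
    (h : code P p0 q = code P p0 q') : q = q' := by
  obtain ⟨ε, _, hε⟩ := eps hP
  have h1 : ∀ r ∈ P, r ≠ p0 → jacobiSym q.2 r = jacobiSym q'.2 r := by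
    intro r hr hr0
    have k1 := code_r (P := P) hr hr0 q
    have k2 := code_r (P := P) hr hr0 q'
    rw [h, k2] at k1
    rcases (hp P hP q hq).1 r hr with a | a <;> rcases (hp P hP q' hq').1 r hr with b | b
    · rw [a, b]
    · exact absurd (k1.1 b) (by rw [a]; norm_num)
    · exact absurd (k1.2 a) (by rw [b]; norm_num)
    · rw [a, b]
  refine sig_inj hP hb hc hp hK hodd hq hq' ?_ ?_
  · intro r hr
    by_cases hr0 : r = p0
    · subst hr0
      rw [at_prime hP hp hq hr, at_prime hP hp hq' hr]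
      refine Finset.prod_congr rfl fun s hs => ?_
      rw [Finset.mem_erase] at hs
      exact h1 s hs.2 hs.1
    · exact h1 r hr hr0
  · have k1 := code_p0 (P := P) p0 q
    have k2 := code_p0 (P := P) p0 q'
    rw [h, k2] at k1
    rcases (hε q hq).1 with a | a <;> rcases (hε q' hq').1 with b | b
    · rw [a, b]
    · exact absurd (k1.2 a) (by rw [b]; norm_num)
    · exact absurd (k1.1 b) (by rw [a]; norm_num)
    · rw [a, b]

lemma card_one (hb : S_SOLB) (hc : S_SOLC) (hp : S_SOLP) (hK : KerT P) (hodd : Odd (nx P))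
    (hne : P.Nonempty) (hS : (Sol3 P).Nonempty) : (FS P).card = 1 := by
  classical
  obtain ⟨p0, h0⟩ := hne
  obtain ⟨q0, hq0⟩ := hS
  obtain ⟨ε, hε1, hε⟩ := eps hP
  have hfl := fun J (hJ : J ⊆ P) => flips hP hb hp hq0 J hJ
  choose! φ hφ using hfl
  have hφinj : ∀ J K, J ⊆ P → K ⊆ P → φ J = φ K → J ⊆ K := by
    intro J K hJ hK' he p hpJ
    by_contra hpK
    have k1 := (hφ J hJ).2.1 p hpJ
    have k2 := (hφ K hK').2.2.1 p (hJ hpJ) hpK
    rw [← he] at k2
    exact notboth hP hp hq0 (hφ J hJ).1 (hJ hpJ) k2 k1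
  have hsurj : Set.SurjOn (fun J => code P p0 (φ J)) (P.powerset : Set (Finset ℕ))
      (P.powerset : Set (Finset ℕ)) := by
    refine Finset.surjOn_of_injOn_of_card_le _ ?_ ?_ le_rfl
    · intro J _
      exact Finset.mem_coe.2 (Finset.mem_powerset.2 (code_sub h0 _))
    · intro J hJ K hK' he
      have hJ1 := Finset.mem_powerset.1 (Finset.mem_coe.1 hJ)
      have hK1 := Finset.mem_powerset.1 (Finset.mem_coe.1 hK')
      have := code_inj hP hb hc hp hK hodd h0 (hφ J hJ1).1 (hφ K hK1).1 he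
      exact Finset.Subset.antisymm (hφinj J K hJ1 hK1 this) (hφinj K J hK1 hJ1 this.symm)
  set A : Finset ℕ := if ε = 1 then {p0} else ∅ with hA
  have hAP : A ∈ (P.powerset : Set (Finset ℕ)) := by
    refine Finset.mem_coe.2 (Finset.mem_powerset.2 ?_)
    rw [hA]
    split_ifs
    · exact Finset.singleton_subset_iff.2 h0
    · exact Finset.empty_subset _
  obtain ⟨J, hJ, hJA⟩ := hsurj hAP
  have hJA' : code P p0 (φ J) = A := hJA
  have hJ1 := Finset.mem_powerset.1 (Finset.mem_coe.1 hJ)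
  have hsol := (hφ J hJ1).1
  have hC : Cc P (φ J) := by
    have h7 : jacobiSym (φ J).1 7 = ε := by
      have k1 := code_p0 (P := P) p0 (φ J)
      rw [hJA'] at k1
      rcases hε1 with e | e
      · have : p0 ∈ A := by rw [hA, if_pos e]; exact Finset.mem_singleton_self _
        rw [e]
        exact k1.1 this
      · have : p0 ∉ A := by rw [hA, if_neg (by rw [e]; norm_num)]; exact Finset.notMem_empty _
        rw [e]
        exact (hε _ hsol).1.resolve_left fun h => this (k1.2 h)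
    have h8 : ∀ r ∈ P, r ≠ p0 → jacobiSym (φ J).2 r = 1 := by
      intro r hr hr0
      have k1 := code_r (P := P) hr hr0 (φ J)
      rw [hJA'] at k1
      have : r ∉ A := by
        rw [hA]
        split_ifs
        · simpa using hr0
        · exact Finset.notMem_empty _
      exact ((hp P hP _ hsol).1 r hr).resolve_right fun h => this (k1.2 h)
    refine ⟨(hε _ hsol).2.2 h7, fun r hr => ?_⟩
    by_cases hr0 : r = p0
    · subst hr0
      rw [at_prime hP hp hsol hr]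
      refine Finset.prod_eq_one fun s hs => ?_
      rw [Finset.mem_erase] at hs
      exact h8 s hs.2 hs.1
    · exact h8 r hr hr0
  rw [Finset.card_eq_one]
  refine ⟨φ J, ?_⟩
  ext q
  rw [mem_FS, Finset.mem_singleton]
  constructor
  · rintro ⟨h1, h2⟩
    refine sig_inj hP hb hc hp hK hodd h1 hsol (fun r hr => ?_) ?_
    · rw [h2.2 r hr, hC.2 r hr]
    · rw [(hε _ h1).2.1 h2.1, (hε _ hsol).2.1 hC.1]
  · rintro rfl
    exact ⟨hsol, hC⟩

lemma card_even (hb : S_SOLB) (hc : S_SOLC) (hp : S_SOLP) (hK : ¬ KerT P) (hodd : Odd (nx P)) :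
    Even (FS P).card := by
  classical
  obtain ⟨ε, hε1, hε⟩ := eps hP
  -- a nontrivial element of the kernel
  obtain ⟨J, hJP, hJ0, hJs, hJn⟩ : ∃ J ⊆ P, J ≠ ∅ ∧ (∀ r ∈ P, sg' P J r = 1) ∧ Even (nx J) := by
    rw [KerT] at hK
    push Not at hK
    obtain ⟨J, hJP, h1, h2, h3, h4⟩ := hK
    have h3' : J ≠ ∅ := by
      intro h
      simp [h] at h3
    have hsum : nx J + nx (P \ J) = nx P := by
      rw [nx, nx, nx, ← Finset.card_union_of_disjoint, ← Finset.filter_union,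
        Finset.union_sdiff_of_subset hJP]
      rw [Finset.disjoint_left]
      intro x hx hx'
      exact (Finset.mem_sdiff.1 (Finset.mem_filter.1 hx').1).2 (Finset.mem_filter.1 hx).1
    by_cases he : Even (nx J)
    · refine ⟨J, hJP, h3', fun r hr => ?_, he⟩
      rw [sg']
      split_ifs with h
      · exact h2 r h
      · exact h1 r (Finset.mem_sdiff.2 ⟨hr, h⟩)
    · refine ⟨P \ J, Finset.sdiff_subset, ?_, fun r hr => ?_, ?_⟩
      · intro h
        rw [Finset.sdiff_eq_empty_iff_subset] at h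
        exact h4 (Finset.Subset.antisymm hJP h)
      · rw [sg', Finset.sdiff_sdiff_eq_self hJP]
        split_ifs with h
        · exact h1 r h
        · have : r ∈ J := by
            by_contra hc'
            exact h (Finset.mem_sdiff.2 ⟨hr, hc'⟩)
          exact h2 r this
      · rw [Nat.not_even_iff_odd] at he
        rw [← hsum] at hodd
        rw [Nat.odd_add] at hodd
        exact hodd.1 he
  have hfl := fun (q : ℤ × ℤ) (hq : q ∈ Sol3 P) => flips hP hb hp hq J hJP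
  choose! φ hφ using hfl
  have hmem : ∀ q ∈ FS P, φ q ∈ FS P := by
    intro q hq
    rw [mem_FS] at hq ⊢
    obtain ⟨h1, h2, h3⟩ := hq
    obtain ⟨k0, k1, k2, k3, k4⟩ := hφ q h1
    refine ⟨k0, ?_, fun r hr => ?_⟩
    · rw [hJn.neg_one_pow, mul_one] at k4
      rw [(hε _ k0).2, k4, ← (hε _ h1).2]
      exact h2
    · rw [k3 r hr, h3 r hr, hJs r hr, mul_one]
  have hsum : ∑ q ∈ FS P, (1 : ZMod 2) = 0 := by
    refine Finset.sum_involution (fun q _ => φ q) ?_ ?_ ?_ ?_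
    · intro q _
      decide
    · intro q hq _ he
      have he' : φ q = q := he
      obtain ⟨h1, h2⟩ := mem_FS.1 hq
      obtain ⟨r, hr⟩ := Finset.nonempty_iff_ne_empty.2 hJ0
      have k1 := (hφ q h1).2.1 r hr
      rw [he'] at k1
      refine notboth hP hp h1 h1 (hJP hr) ?_ k1
      simp
    · intro q hq
      exact hmem q hq
    · intro q hq
      obtain ⟨h1, h2⟩ := mem_FS.1 hq
      obtain ⟨k0, k1, k2, k3, k4⟩ := hφ q h1
      obtain ⟨l0, l1, l2, l3, l4⟩ := hφ (φ q) k0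
      refine uniq hP hc hp k0 l0 h1 fun p hpP => ?_
      by_cases hpJ : p ∈ J
      · right
        refine ⟨l1 p hpJ, ?_⟩
        have := k1 p hpJ
        rwa [add_comm] at this
      · left
        refine ⟨l2 p hpP hpJ, ?_⟩
        have := (dvd_neg).2 (k2 p hpP hpJ)
        rwa [neg_sub] at this
  rw [Finset.sum_const, nsmul_one] at hsum
  exact (ZMod.natCast_eq_zero_iff_even).1 hsum

end

theorem t_FIX (ha : S_SOLA) (hb : S_SOLB) (hc : S_SOLC) (hp : S_SOLP) : S_FIX := by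
  classical
  intro P hP hne
  rw [fixS_card hP]
  have hA := ha P hP
  constructor
  · intro h
    have hS : (Sol3 P).Nonempty := by
      have h1 : (FS P).Nonempty := by
        rw [← Finset.card_pos]
        exact h.pos
      obtain ⟨q, hq⟩ := h1
      exact ⟨q, (mem_FS.1 hq).1⟩
    have hodd := hA.1 hS
    refine ⟨hodd, ?_⟩
    by_contra hK
    have := card_even hP hb hc hp hK hodd
    exact (Nat.not_even_iff_odd.2 h) this
  · rintro ⟨hodd, hK⟩
    rw [card_one hP hb hc hp hK hodd hne (hA.2 hodd)]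
    exact odd_one

end Pool.Agent.Y165.Z
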